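import Pool.Agent.H28.MCL.Targets
import Pool.Agent.H27.T2.Select

/-!
# The opposite signs
-/

set_option autoImplicit false

open Pool.Agent.H28.MCL Finset Filter

namespace Pool.Agent.H39.MCL

open Pool.Agent.H27.T2 (bi bl bl_spec card_window_le)

/-- the opposite signs in a bad window -/
lemma opp_le {f : ℕ → ℝ} {κ : ℝ} {Q c h n : ℕ} (hf : ∀ n, f n = 1 ∨ f n = -1) (hQ : 0 < Q)
    (hb : Bad f κ Q c h n) (s : ℤ) (hs : s = if 0 ≤ ws f Q c n h then 1 else -1) :
    (((Ioc n (n + h)).filter (fun m => m ≡ c [MOD Q] ∧ f m ≠ (s : ℝ))).card : ℝ) ≤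
      (κ * h / Q + 1) / 2 := by
  classical
  have hQR : (0 : ℝ) < Q := by exact_mod_cast hQ
  have hC := card_window_le Q h n c
  unfold Bad at hb
  have hs1 : (s : ℝ) * ws f Q c n h = |ws f Q c n h| := by
    rw [hs]
    split_ifs with h0
    · rw [abs_of_nonneg h0]
      simp
    · rw [abs_of_neg (not_le.1 h0)]
      push_cast
      ring
  have hsv : (s : ℝ) = 1 ∨ (s : ℝ) = -1 := by
    rw [hs]
    split_ifs
    · left; simp
    · right; simp
  have h2 : 2 * (((Ioc n (n + h)).filter (fun m => m ≡ c [MOD Q] ∧ f m ≠ (s : ℝ))).card : ℝ) =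
      (((Ioc n (n + h)).filter (fun m => m ≡ c [MOD Q])).card : ℝ) -
        (s : ℝ) * ws f Q c n h := by
    unfold ws
    rw [Finset.card_eq_sum_ones, Nat.cast_sum, ← Finset.filter_filter, Finset.sum_filter,
      Finset.card_eq_sum_ones ((Ioc n (n + h)).filter (fun m => m ≡ c [MOD Q])), Nat.cast_sum,
      Finset.mul_sum, Finset.mul_sum, ← Finset.sum_sub_distrib]
    apply Finset.sum_congr rfl
    intro m _
    rcases hf m with h1 | h1 <;> rcases hsv with h3 | h3 <;> rw [h1, h3] <;> norm_num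
  rw [hs1] at h2
  have h4 : (1 - κ) * h / Q < |ws f Q c n h| := by
    rw [div_lt_iff₀ hQR]
    linarith
  have h5 : (1 - κ) * h / Q = h / Q - κ * h / Q := by ring
  linarith

open Classical in
theorem blb (hL : T_LGC) : T_BLB := by
  intro f κ Q c h o x y hf hκ hQ hh ho hx hxy
  have hQR : (0 : ℝ) < Q := by exact_mod_cast hQ
  have hxR : (1 : ℝ) ≤ x := by exact_mod_cast hx
  set S := (Icc x y).filter (fun m => m ≡ c [MOD Q] ∧ lc f κ Q c h o m ≠ 0 ∧
        f m ≠ (lc f κ Q c h o m : ℝ)) with hS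
  have key : ∀ m ∈ S, bl h o m < m ∧ m ≤ bl h o m + h ∧ bl h o m ≡ o [MOD h] ∧
      Bad f κ Q c h (bl h o m) ∧ m ≡ c [MOD Q] ∧
      f m ≠ (((if 0 ≤ ws f Q c (bl h o m) h then 1 else -1 : ℤ)) : ℝ) ∧ x ≤ m ∧ m ≤ y := by
    intro m hm
    rw [hS, mem_filter, mem_Icc] at hm
    obtain ⟨hm1, hm2, hm3, hm4⟩ := hm
    unfold lc at hm3 hm4
    by_cases hc : 1 ≤ bl h o m ∧ 1 ≤ bi h o m ∧ Bad f κ Q c h (bl h o m)
    · rw [if_pos hc] at hm4
      obtain ⟨e1, e2, e3⟩ := bl_spec hh ho (by omega : 1 ≤ m) hc.2.1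
      exact ⟨e1, e2, e3, hc.2.2, hm2, hm4, hm1.1, hm1.2⟩
    · rw [if_neg hc] at hm3
      exact absurd rfl hm3
  rw [← Finset.sum_filter_add_sum_filter_not S (fun m => x ≤ bl h o m)]
  have hc0 : (0 : ℝ) ≤ (κ * h / Q + 1) / 2 := by positivity
  apply add_le_add
  · set A := (Icc x y).filter (fun n => n ≡ o [MOD h]) with hA
    have hmaps : ∀ m ∈ S.filter (fun m => x ≤ bl h o m), bl h o m ∈ A := by
      intro m hm
      rw [mem_filter] at hm
      obtain ⟨e1, e2, e3, e4, e5, e6, e7, e8⟩ := key m hm.1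
      rw [hA, mem_filter, mem_Icc]
      exact ⟨⟨hm.2, by omega⟩, e3⟩
    rw [← Finset.sum_fiberwise_of_maps_to hmaps]
    refine le_trans (Finset.sum_le_sum (g := fun n : ℕ => (κ * h / Q + 1) / 2 * ((1 : ℝ) / n)) ?_) ?_
    · intro n hn
      rw [hA, mem_filter, mem_Icc] at hn
      have hnR : (0 : ℝ) < n := by
        have : 0 < n := by omega
        exact_mod_cast this
      by_cases hemp : ((S.filter (fun m => x ≤ bl h o m)).filter (fun m => bl h o m = n)) = ∅
      · rw [hemp, Finset.sum_empty]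
        positivity
      · obtain ⟨m₀, hm₀⟩ := Finset.nonempty_iff_ne_empty.2 hemp
        have hbad : Bad f κ Q c h n := by
          rw [mem_filter, mem_filter] at hm₀
          have := (key m₀ hm₀.1.1).2.2.2.1
          rwa [hm₀.2] at this
        have h1 : ∑ m ∈ (S.filter (fun m => x ≤ bl h o m)).filter (fun m => bl h o m = n),
            (1 : ℝ) / m ≤
            ∑ m ∈ (S.filter (fun m => x ≤ bl h o m)).filter (fun m => bl h o m = n),
              (1 : ℝ) / n := by
          apply Finset.sum_le_sum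
          intro m hm
          rw [mem_filter, mem_filter] at hm
          have := (key m hm.1.1).1
          rw [hm.2] at this
          apply one_div_le_one_div_of_le hnR
          exact_mod_cast this.le
        refine h1.trans ?_
        rw [Finset.sum_const, nsmul_eq_mul]
        apply mul_le_mul_of_nonneg_right _ (by positivity)
        refine le_trans ?_ (opp_le hf hQ hbad _ rfl)
        rw [Nat.cast_le]
        apply Finset.card_le_card
        intro m hm
        rw [mem_filter, mem_filter] at hm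
        obtain ⟨e1, e2, e3, e4, e5, e6, e7, e8⟩ := key m hm.1.1
        rw [hm.2] at e1 e2 e6
        rw [mem_filter, mem_Ioc]
        exact ⟨⟨e1, e2⟩, e5, e6⟩
    · rw [← Finset.mul_sum]
      exact mul_le_mul_of_nonneg_left (hL h o x y hh hx hxy) hc0
  · have h1 : ∑ m ∈ S.filter (fun m => ¬ x ≤ bl h o m), (1 : ℝ) / m ≤
        ∑ m ∈ S.filter (fun m => ¬ x ≤ bl h o m), (1 : ℝ) := by
      apply Finset.sum_le_sum
      intro m hm
      rw [mem_filter] at hm
      obtain ⟨e1, e2, e3, e4, e5, e6, e7, e8⟩ := key m hm.1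
      have hm1 : (1 : ℝ) ≤ m := by
        have : 1 ≤ m := by omega
        exact_mod_cast this
      rw [div_le_one (by linarith)]
      exact hm1
    refine h1.trans ?_
    rw [Finset.sum_const, nsmul_eq_mul, mul_one, Nat.cast_le]
    have h2 : S.filter (fun m => ¬ x ≤ bl h o m) ⊆ Ico x (x + h) := by
      intro m hm
      rw [mem_filter] at hm
      obtain ⟨e1, e2, e3, e4, e5, e6, e7, e8⟩ := key m hm.1
      have := hm.2
      rw [mem_Ico]
      omega
    refine (Finset.card_le_card h2).trans ?_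
    rw [Nat.card_Ico]
    omega

end Pool.Agent.H39.MCL
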